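import Mathlib

/-! Curves on the smooth quadric in projective 3-space, and intersections of two surfaces. -/

namespace Pool.Agent.MP_b04567_ag

/-- The bihomogeneous form of bidegree (a, b) in (s, t) and (u, v) with coefficients c i j. -/
noncomputable def biform (a b : ℕ) (c : ℕ → ℕ → ℂ) (s t u v : ℂ) : ℂ :=
  ∑ i ∈ Finset.range (a + 1), ∑ j ∈ Finset.range (b + 1),
    c i j * s ^ i * t ^ (a - i) * u ^ j * v ^ (b - j)

/-- The affine cone over the curve of bidegree (a, b) on the Segre quadric. -/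
def curveCone (a b : ℕ) (c : ℕ → ℕ → ℂ) : Set (Fin 4 → ℂ) :=
  {p | ∃ s t u v : ℂ, p = ![s * u, t * u, s * v, t * v] ∧ biform a b c s t u v = 0}

/-- Z is the common zero set of two nonconstant homogeneous polynomials. -/
def CutByTwo (Z : Set (Fin 4 → ℂ)) : Prop :=
  ∃ (F G : MvPolynomial (Fin 4) ℂ) (d e : ℕ), 0 < d ∧ 0 < e ∧ F ≠ 0 ∧ G ≠ 0 ∧
    F.IsHomogeneous d ∧ G.IsHomogeneous e ∧
    Z = {p | MvPolynomial.eval p F = 0 ∧ MvPolynomial.eval p G = 0}

end Pool.Agent.MP_b04567_ag
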